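import Pool.Agent.H89.FLT.S

/-!
# MP_e1ba20: compact flats, row COV
-/

set_option autoImplicit false

open Matrix

namespace Pool.FLT.H51

open Pool.FLT MeasureTheory

open scoped Pointwise

variable {n : ℕ}

instance haar_vol (n : ℕ) : (vol n).IsAddHaarMeasure := by
  unfold vol
  infer_instance

/-! ### Permutations of the coordinates -/

lemma co_add (x y : aa n) (i : Fin n) : co (x + y) i = co x i + co y i := rfl

lemma co_sub (x y : aa n) (i : Fin n) : co (x - y) i = co x i - co y i := rfl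

lemma co_smul (c : ℝ) (x : aa n) (i : Fin n) : co (c • x) i = c * co x i := rfl

lemma co_zero (i : Fin n) : co (0 : aa n) i = 0 := rfl

lemma co_pm (σ : Equiv.Perm (Fin n)) (x : aa n) (i : Fin n) : co (pm σ x) i = co x (σ.symm i) := rfl

lemma co_ext {x y : aa n} (h : ∀ i, co x i = co y i) : x = y := by
  apply Subtype.ext
  ext i
  exact h i

/-- `pm σ` as a linear map. -/
noncomputable def pmL (σ : Equiv.Perm (Fin n)) : aa n →ₗ[ℝ] aa n where
  toFun := pm σ
  map_add' x y := co_ext fun i => by simp only [co_pm, co_add]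
  map_smul' c x := co_ext fun i => by simp only [co_pm, co_smul, RingHom.id_apply]

lemma pmL_apply (σ : Equiv.Perm (Fin n)) (x : aa n) : pmL σ x = pm σ x := rfl

lemma pm_mul (σ τ : Equiv.Perm (Fin n)) (x : aa n) : pm (σ * τ) x = pm σ (pm τ x) :=
  co_ext fun i => by
    simp only [co_pm]
    rfl

lemma pm_one (x : aa n) : pm 1 x = x := co_ext fun _ => rfl

lemma pm_inv_pm (σ : Equiv.Perm (Fin n)) (x : aa n) : pm σ⁻¹ (pm σ x) = x := by
  rw [← pm_mul, inv_mul_cancel, pm_one]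

/-- The representation of the symmetric group. -/
noncomputable def rep (n : ℕ) : Equiv.Perm (Fin n) →* (aa n →ₗ[ℝ] aa n) where
  toFun := pmL
  map_one' := LinearMap.ext fun x => pm_one x
  map_mul' σ τ := LinearMap.ext fun x => pm_mul σ τ x

lemma abs_det (σ : Equiv.Perm (Fin n)) : |LinearMap.det (pmL σ)| = 1 := by
  have h1 : (LinearMap.det (pmL σ)) ^ (orderOf σ) = 1 := by
    have h2 : pmL σ = rep n σ := rfl
    rw [h2, ← map_pow, ← map_pow, pow_orderOf_eq_one, map_one, map_one]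
  have h3 : |LinearMap.det (pmL σ)| ^ (orderOf σ) = 1 := by
    rw [← abs_pow, h1, abs_one]
  exact (pow_eq_one_iff_of_nonneg (abs_nonneg _) (orderOf_pos σ).ne').1 h3

lemma vol_image (σ : Equiv.Perm (Fin n)) (S : Set (aa n)) : vol n (pm σ '' S) = vol n S := by
  have h := Measure.addHaar_image_linearMap (vol n) (pmL σ) S
  rw [abs_det, ENNReal.ofReal_one, one_mul] at h
  exact h

/-! ### Data of monomial elements -/

lemma cmul (a b : GR n) : ((a * b : GR n) : Matrix (Fin n) (Fin n) ℝ) =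
    (a : Matrix (Fin n) (Fin n) ℝ) * (b : Matrix (Fin n) (Fin n) ℝ) := rfl

lemma cone : ((1 : GR n) : Matrix (Fin n) (Fin n) ℝ) = 1 := rfl

/-- The element of the group of `g` given by `γ`. -/
noncomputable def NN (g : GR n) (γ : GZ n) : GR n := g⁻¹ * (inc n γ)⁻¹ * g

/-- `(σ, t)` are the data of `NN g γ`. -/
def Dat (g : GR n) (γ : GZ n) (σ : Equiv.Perm (Fin n)) (t : aa n) : Prop :=
  (∀ d : Fin n → ℝ, (NN g γ : Matrix (Fin n) (Fin n) ℝ) * diagonal d =
    diagonal (fun i => d (σ.symm i)) * (NN g γ : Matrix (Fin n) (Fin n) ℝ)) ∧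
  ∃ k : GR n, inK k ∧ NN g γ = ee t * k

lemma ee_zero : ee (0 : aa n) = 1 := by
  apply Subtype.ext
  simp [ee]

lemma coe_ee (x : aa n) : (ee x : Matrix (Fin n) (Fin n) ℝ) = diagonal fun i => Real.exp (co x i) :=
  rfl

lemma mul_transpose_of (t : aa n) (k N : GR n) (hk : inK k) (h : N = ee t * k) :
    (N : Matrix (Fin n) (Fin n) ℝ) * (N : Matrix (Fin n) (Fin n) ℝ)ᵀ =
      diagonal fun i => Real.exp (co t i) ^ 2 := by
  rw [h, cmul, transpose_mul, Matrix.mul_assoc,
    ← Matrix.mul_assoc (k : Matrix (Fin n) (Fin n) ℝ)]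
  unfold inK at hk
  rw [hk, Matrix.one_mul, coe_ee, diagonal_transpose, diagonal_mul_diagonal]
  congr 1
  ext i
  ring

lemma coe_inc (γ : GZ n) : (inc n γ : Matrix (Fin n) (Fin n) ℝ) = cst (γ : Matrix (Fin n) (Fin n) ℤ) :=
  rfl

/-- A matrix which commutes with all diagonal matrices is diagonal. -/
lemma diag_of_comm (M : Matrix (Fin n) (Fin n) ℝ) (h : ∀ d : Fin n → ℝ, M * diagonal d = diagonal d * M) :
    M = diagonal fun i => M i i := by
  ext i j
  by_cases hij : i = j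
  · subst hij
    simp
  · rw [diagonal_apply_ne _ hij]
    have h1 := congrFun (congrFun (h (fun k => if k = i then 1 else 0)) i) j
    rw [mul_diagonal, diagonal_mul, if_neg (fun hh => hij hh.symm), if_pos rfl] at h1
    linarith

lemma lam_of_dat (g : GR n) (γ γ' : GZ n) (σ : Equiv.Perm (Fin n)) (t t' : aa n)
    (h : Dat g γ σ t) (h' : Dat g γ' σ t') : pm σ⁻¹ (t' - t) ∈ Lam g := by
  obtain ⟨hc, k, hk, hN⟩ := h
  obtain ⟨hc', k', hk', hN'⟩ := h'
  set N := NN g γ with hNdef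
  set M := NN g γ' with hMdef
  have hNi : ((N⁻¹ : GR n) : Matrix (Fin n) (Fin n) ℝ) * (N : Matrix (Fin n) (Fin n) ℝ) = 1 := by
    rw [← cmul, inv_mul_cancel, cone]
  have hNi' : (N : Matrix (Fin n) (Fin n) ℝ) * ((N⁻¹ : GR n) : Matrix (Fin n) (Fin n) ℝ) = 1 := by
    rw [← cmul, mul_inv_cancel, cone]
  have hcomm : ∀ d : Fin n → ℝ, ((N⁻¹ * M : GR n) : Matrix (Fin n) (Fin n) ℝ) * diagonal d =
      diagonal d * ((N⁻¹ * M : GR n) : Matrix (Fin n) (Fin n) ℝ) := by
    intro d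
    rw [cmul, Matrix.mul_assoc, hc' d]
    have h1 : ((N⁻¹ : GR n) : Matrix (Fin n) (Fin n) ℝ) * diagonal (fun i => d (σ.symm i)) =
        diagonal d * ((N⁻¹ : GR n) : Matrix (Fin n) (Fin n) ℝ) := by
      calc ((N⁻¹ : GR n) : Matrix (Fin n) (Fin n) ℝ) * diagonal (fun i => d (σ.symm i))
          = ((N⁻¹ : GR n) : Matrix (Fin n) (Fin n) ℝ) * (diagonal (fun i => d (σ.symm i)) *
            ((N : Matrix (Fin n) (Fin n) ℝ) * ((N⁻¹ : GR n) : Matrix (Fin n) (Fin n) ℝ))) := by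
              rw [hNi', Matrix.mul_one]
        _ = ((N⁻¹ : GR n) : Matrix (Fin n) (Fin n) ℝ) * ((N : Matrix (Fin n) (Fin n) ℝ) * diagonal d) *
            ((N⁻¹ : GR n) : Matrix (Fin n) (Fin n) ℝ) := by
              rw [hc d]
              simp only [Matrix.mul_assoc]
        _ = diagonal d * ((N⁻¹ : GR n) : Matrix (Fin n) (Fin n) ℝ) := by
              rw [← Matrix.mul_assoc, hNi, Matrix.one_mul]
    rw [← Matrix.mul_assoc, h1, Matrix.mul_assoc]
  have hd := diag_of_comm _ hcomm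
  set δ : Fin n → ℝ := fun i => ((N⁻¹ * M : GR n) : Matrix (Fin n) (Fin n) ℝ) i i with hδ
  have hM : (M : Matrix (Fin n) (Fin n) ℝ) = (N : Matrix (Fin n) (Fin n) ℝ) * diagonal δ := by
    rw [← hd, ← cmul, mul_inv_cancel_left]
  have h1 := mul_transpose_of t k N hk hN
  have h2 := mul_transpose_of t' k' M hk' hN'
  have h3 : (M : Matrix (Fin n) (Fin n) ℝ) * (M : Matrix (Fin n) (Fin n) ℝ)ᵀ =
      diagonal fun i => δ (σ.symm i) ^ 2 * Real.exp (co t i) ^ 2 := by
    rw [hM, transpose_mul, diagonal_transpose, Matrix.mul_assoc, ← Matrix.mul_assoc (diagonal δ),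
      diagonal_mul_diagonal, ← Matrix.mul_assoc, hc, Matrix.mul_assoc, h1, diagonal_mul_diagonal]
    congr 1
    ext i
    ring
  have h4 : ∀ i, Real.exp (co t' i) ^ 2 = δ (σ.symm i) ^ 2 * Real.exp (co t i) ^ 2 := by
    intro i
    have h5 := congrFun (congrFun (h2.symm.trans h3) i) i
    simpa using h5
  refine ⟨((γ * γ'⁻¹ : GZ n) : Matrix (Fin n) (Fin n) ℤ), δ, ?_, ?_⟩
  · unfold Dg
    rw [← coe_inc, ← hd, ← cmul, ← cmul]
    congr 1
    rw [hNdef, hMdef]
    unfold NN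
    rw [map_mul, map_inv]
    simp only [_root_.mul_inv_rev, inv_inv, mul_assoc, mul_inv_cancel_left]
  · intro i
    have h5 := h4 (σ i)
    rw [Equiv.symm_apply_apply] at h5
    have h6 : co (pm σ⁻¹ (t' - t)) i = co t' (σ i) - co t (σ i) := rfl
    show |δ i| = Real.exp (co (pm σ⁻¹ (t' - t)) i)
    rw [h6, Real.exp_sub, eq_div_iff (Real.exp_pos _).ne']
    have h7 : (|δ i| * Real.exp (co t (σ i))) ^ 2 = Real.exp (co t' (σ i)) ^ 2 := by
      rw [mul_pow, sq_abs, h5]
    exact (pow_left_inj₀ (by positivity) (by positivity) two_ne_zero).1 h7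

/-- Existence of the data. -/
lemma exists_dat (h2 : MACStmt) (g : GR n) (γ : GZ n)
    (hm : Mono (NN g γ : Matrix (Fin n) (Fin n) ℝ)) :
    ∃ (σ : Equiv.Perm (Fin n)) (t : aa n), Dat g γ σ t ∧
      ∀ (x y : aa n) (k : GR n), inK k → NN g γ * ee x = ee y * k → y = pm σ x + t := by
  obtain ⟨σ, t, ha, hb, hc⟩ := h2 n (NN g γ) hm
  refine ⟨σ, t, ⟨hc, ?_⟩, hb⟩
  obtain ⟨k, hk, hk2⟩ := ha 0
  refine ⟨k, hk, ?_⟩
  rw [ee_zero, mul_one] at hk2
  rw [hk2]
  have h3 : pm σ (0 : aa n) = 0 := co_ext fun i => rfl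
  rw [h3, zero_add]

/-- The part of `B'` which belongs to the permutation `σ`. -/
lemma piece (g : GR n) (B : Set (aa n)) (hB : IsCompact B) (σ : Equiv.Perm (Fin n)) :
    ∃ P : Set (aa n), IsCompact P ∧ vol n P ≤ vol n B ∧
      ∀ (γ : GZ n) (t : aa n), Dat g γ σ t → ∀ x : aa n, pm σ x + t ∈ B →
        ∃ l ∈ Lam g, ∃ b ∈ P, x = l + b := by
  by_cases h : ∃ (γ0 : GZ n) (t0 : aa n), Dat g γ0 σ t0
  · obtain ⟨γ0, t0, h0⟩ := h
    refine ⟨pm σ⁻¹ '' ((fun y => y + -t0) '' B), ?_, ?_, ?_⟩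
    · have hc1 : Continuous (fun y : aa n => y + -t0) := by fun_prop
      have hc2 : Continuous (pm σ⁻¹ : aa n → aa n) := by
        have h5 := LinearMap.continuous_of_finiteDimensional (pmL (n := n) σ⁻¹)
        exact h5
      exact (hB.image hc1).image hc2
    · rw [vol_image]
      have h5 : (fun y : aa n => y + -t0) '' B = (fun y => y + t0) ⁻¹' B := by
        rw [Set.image_add_right]
        simp
      rw [h5, measure_preimage_add_right]
    · intro γ t hd x hx
      refine ⟨pm σ⁻¹ (t0 - t), lam_of_dat g γ γ0 σ t t0 hd h0, pm σ⁻¹ ((pm σ x + t) + -t0),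
        ⟨_, ⟨_, hx, rfl⟩, rfl⟩, ?_⟩
      rw [← pmL_apply, ← pmL_apply, ← map_add]
      have h6 : t0 - t + (pm σ x + t + -t0) = pm σ x := by abel
      rw [h6, pmL_apply, pm_inv_pm]
  · refine ⟨∅, isCompact_empty, by simp, ?_⟩
    intro γ t hd
    exact absurd ⟨γ, t, hd⟩ h

theorem cov (h1 : MONStmt) (h2 : MACStmt) (h3 : SUBStmt) (h4 : GAPStmt) : COVStmt := by
  intro n hn Γ g B hB hfl
  choose P hP1 hP2 hP3 using piece (n := n) g B hB
  refine ⟨⋃ σ, P σ, isCompact_iUnion hP1, ?_, ?_⟩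
  · calc vol n (⋃ σ, P σ) ≤ ∑ σ, vol n (P σ) := measure_iUnion_fintype_le _ _
      _ ≤ ∑ _σ : Equiv.Perm (Fin n), vol n B := Finset.sum_le_sum fun σ _ => hP2 σ
      _ = (n.factorial : ENNReal) * vol n B := by
        rw [Finset.sum_const, Finset.card_univ, Fintype.card_perm, Fintype.card_fin, nsmul_eq_mul]
  · obtain ⟨L, hL⟩ := h3 n g
    obtain ⟨c0, hc0, hgap⟩ := h4 n hn
    -- the set is closed
    have hLc : IsClosed (Lam g) := by
      apply Metric.isClosed_of_pairwise_le_dist hc0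
      intro x hx y hy hxy
      rw [dist_eq_norm]
      refine hgap g (x - y) ?_ (sub_ne_zero.2 hxy)
      rw [← hL] at hx hy ⊢
      exact L.sub_mem hx hy
    have hcl : IsClosed (Lam g + ⋃ σ, P σ) := hLc.add_right_of_isCompact (isCompact_iUnion hP1)
    -- the complement is null
    have hnull : vol n (Lam g + ⋃ σ, P σ)ᶜ = 0 := by
      have hsub : (Lam g + ⋃ σ, P σ)ᶜ ⊆ ⋃ γ : {γ : GZ n // ¬ Mono (NN g γ : Matrix (Fin n) (Fin n) ℝ)},
          {x : aa n | ∃ (y : aa n) (k : GR n), inK k ∧ NN g γ.1 * ee x = ee y * k} := by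
        intro x hx
        have hx1 : g * ee x ∈ fl Γ g := by
          refine ⟨1, Γ.one_mem, x, Set.mem_univ _, 1, ?_, ?_⟩
          · unfold inK
            simp
          · rw [map_one, one_mul, mul_one]
        rw [hfl] at hx1
        obtain ⟨γ, hγ, y, hy, k, hk, hgk⟩ := hx1
        have hN : NN g γ * ee x = ee y * k := by
          unfold NN
          rw [mul_assoc, hgk]
          group
        by_cases hm : Mono (NN g γ : Matrix (Fin n) (Fin n) ℝ)
        · exfalso
          apply hx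
          obtain ⟨σ, t, hd, hu⟩ := exists_dat h2 g γ hm
          have hy2 := hu x y k hk hN
          obtain ⟨l, hl, b, hb, hxl⟩ := hP3 σ γ t hd x (hy2 ▸ hy)
          rw [hxl]
          exact Set.add_mem_add hl (Set.mem_iUnion.2 ⟨σ, hb⟩)
        · exact Set.mem_iUnion.2 ⟨⟨γ, hm⟩, y, k, hk, hN⟩
      apply measure_mono_null hsub
      have : Countable (GZ n) := by
        have hinj : Function.Injective
            (fun (γ : GZ n) (i j : Fin n) => (γ : Matrix (Fin n) (Fin n) ℤ) i j) := by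
          intro a b hab
          apply Subtype.ext
          exact hab
        exact hinj.countable
      rw [measure_iUnion_null_iff]
      intro γ
      exact h1 n hn _ γ.2
    have hempty : (Lam g + ⋃ σ, P σ)ᶜ = ∅ := hcl.isOpen_compl.measure_eq_zero_iff (vol n) |>.1 hnull
    intro x
    have hx : x ∈ Lam g + ⋃ σ, P σ := by
      by_contra hx
      have : x ∈ (Lam g + ⋃ σ, P σ)ᶜ := hx
      rw [hempty] at this
      exact this
    obtain ⟨l, hl, b, hb, hlb⟩ := Set.mem_add.1 hx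
    exact ⟨l, hl, b, hb, hlb.symm⟩

end Pool.FLT.H51

namespace Pool.FLT

/-- **Row COV.** -/
theorem cov (h1 : MONStmt) (h2 : MACStmt) (h3 : SUBStmt) (h4 : GAPStmt) : COVStmt :=
  H51.cov h1 h2 h3 h4

end Pool.FLT
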